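import Pool.Agent.H33.Asp3

set_option autoImplicit false

namespace Pool.Agent.Results.MP_e733ef_an.Neg

open Pool.Agent.H33.Asp TopologicalSpace Set Filter Topology

/-- Frechet differentiability at `x0` (uniformly on bounded sets). -/
def FreAt {E : Type} [AddCommGroup E] [Module ℝ E] [TopologicalSpace E] (f : E → ℝ) (x0 : E) :
    Prop :=
  ∃ φ : E →L[ℝ] ℝ, ∀ B : Set E, Bornology.IsVonNBounded ℝ B → ∀ ε > (0 : ℝ), ∃ δ > (0 : ℝ),
    ∀ t : ℝ, 0 < |t| → |t| < δ → ∀ x ∈ B, |(f (x0 + t • x) - f x0) / t - φ x| < ε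

/-- Gateaux differentiability at `x0`. -/
def GatAt {E : Type} [AddCommGroup E] [Module ℝ E] [TopologicalSpace E] (f : E → ℝ) (x0 : E) :
    Prop :=
  ∃ φ : E →L[ℝ] ℝ, ∀ x : E, ∀ ε > (0 : ℝ), ∃ δ > (0 : ℝ),
    ∀ t : ℝ, 0 < |t| → |t| < δ → |(f (x0 + t • x) - f x0) / t - φ x| < ε

theorem result : ∃ (E : Type) (_ : AddCommGroup E) (_ : Module ℝ E) (_ : TopologicalSpace E)
    (_ : IsTopologicalAddGroup E) (_ : ContinuousSMul ℝ E),
    T2Space E ∧ LocallyConvexSpace ℝ E ∧ BaireSpace E ∧ SeparableSpace (StrongDual ℝ E) ∧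
    ∃ f : E → ℝ, Continuous f ∧ ConvexOn ℝ univ f ∧ ∀ x0, ¬ FreAt f x0 ∧ ¬ GatAt f x0 := by
  obtain ⟨E, h1, h2, h3⟩ := exists_E
  have hE : Dense (E : Set P) := dense_iff_inter_open.2 fun O a1 a2 => by
    obtain ⟨x, b1, b2, -⟩ := h1 (fun _ => univ) (fun _ => isOpen_univ) (fun _ => dense_univ) O a1 a2
    exact ⟨x, b2, b1⟩
  let c : K → StrongDual ℝ E := fun k =>
    (ContinuousLinearMap.proj k).comp ((ContinuousLinearMap.snd ℝ X (K → ℝ)).comp E.subtypeL)
  have fin : ∀ B : Set E, Bornology.IsVonNBounded ℝ B →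
      FiniteDimensional ℝ (Submodule.span ℝ B) := by
    intro B hB
    obtain ⟨b, b1, b2, b3⟩ := exists_linearIndependent ℝ B
    rw [← b2]
    refine FiniteDimensional.span_of_finite ℝ (by_contra fun hb => ?_)
    let e := Set.Infinite.natEmbedding b hb
    obtain ⟨k, hk⟩ := h3 (fun n => (e n).1.1) (fun n => (e n).1.2)
      ((b3.comp e e.injective).map' E.subtype E.ker_subtype)
    obtain ⟨M, hM⟩ := ((NormedSpace.isVonNBounded_iff ℝ).1 (hB.image (c k))).bddAbove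
    obtain ⟨n, hn⟩ := exists_nat_gt M
    exact absurd (hM ⟨_, b1 (e n).2, hk n⟩) (not_le.2 hn)
  refine ⟨E, inferInstance, inferInstance, inferInstance, inferInstance, inferInstance,
    inferInstance, Topology.IsInducing.locallyConvexSpace (f := E.subtype) IsInducing.subtypeVal,
    ⟨fun U ho hd => dense_iff_inter_open.2 fun O a1 a2 => ?_⟩, ?_, fun x => ‖x.1.1‖, by fun_prop,
    ⟨convex_univ, fun x _ y _ a b ha hb _ => ?_⟩, fun x0 => ?_⟩
  · choose V v1 v2 using fun n => isOpen_induced_iff.1 (ho n)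
    obtain ⟨O, o1, rfl⟩ := isOpen_induced_iff.1 a1
    obtain ⟨x, b1, b2, b3⟩ := h1 V v1 (fun n => (hE.denseRange_val.dense_image
      continuous_subtype_val (hd n)).mono (by rw [← v2 n]; exact image_preimage_subset _ _)) O o1
      (a2.image Subtype.val |>.mono (image_preimage_subset _ _))
    exact ⟨⟨x, b1⟩, b2, mem_iInter.2 fun n => v2 n ▸ mem_iInter.1 b3 n⟩
  · exact sep fin (fun j : K0 => c (Sum.inl j)) fun y hy => Subtype.ext (h2 _ y.2 (funext hy))
  · refine (norm_add_le (a • x.1.1) (b • y.1.1)).trans ?_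
    simp [norm_smul, abs_of_nonneg ha, abs_of_nonneg hb]
  · have key : ¬ GatAt (fun x : E => ‖x.1.1‖) x0 := by
      rintro ⟨φ, hφ⟩
      obtain ⟨h, hh⟩ := kink x0.1.1
      obtain ⟨y, y1, y2⟩ := hE.inter_open_nonempty {p | ‖p.1 - h‖ < 1 / 2}
        (isOpen_lt (by fun_prop) continuous_const) ⟨(h, 0), by simp⟩
      obtain ⟨δ, d0, hd⟩ := hφ ⟨y, y2⟩ (1 / 2) (by norm_num)
      have low : ∀ t : ℝ, |t| / 2 ≤ ‖(x0 + t • (⟨y, y2⟩ : E)).1.1‖ - ‖x0.1.1‖ := fun t => by
        have e1 := norm_sub_le (x0.1.1 + t • y.1) (t • (y.1 - h))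
        rw [show x0.1.1 + t • y.1 - t • (y.1 - h) = x0.1.1 + t • h by module, hh, norm_smul,
          Real.norm_eq_abs] at e1
        have e2 : ‖y.1 - h‖ < 1 / 2 := y1
        change _ ≤ ‖x0.1.1 + t • y.1‖ - _
        nlinarith [abs_nonneg t]
      have p0 : |δ / 2| = δ / 2 := abs_of_pos (by positivity)
      have a1 := (abs_lt.1 (hd (δ / 2) (by linarith) (by linarith))).2
      have a2 := (abs_lt.1 (hd (-(δ / 2)) (by rw [abs_neg]; linarith) (by rw [abs_neg]; linarith))).1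
      have a3 := low (δ / 2)
      have a4 := low (-(δ / 2))
      rw [abs_neg] at a4
      rw [p0] at a3 a4
      have a5 := (le_div_iff₀ (show 0 < δ / 2 by positivity)).2
        (show 1 / 2 * (δ / 2) ≤ _ from le_of_eq_of_le (by ring) a3)
      have a6 := (le_div_iff₀ (show 0 < δ / 2 by positivity)).2
        (show 1 / 2 * (δ / 2) ≤ _ from le_of_eq_of_le (by ring) a4)
      simp only [div_neg] at a1 a2
      linarith
    refine ⟨fun ⟨φ, hφ⟩ => key ⟨φ, fun x ε he => ?_⟩, key⟩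
    obtain ⟨δ, d0, hd⟩ := hφ {x} (Bornology.isVonNBounded_singleton x) ε he
    exact ⟨δ, d0, fun t a b => hd t a b x rfl⟩

end Pool.Agent.Results.MP_e733ef_an.Neg
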